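import Pool.Agent.H71.DR.Two

/-! # The representation together with the degree is injective (`m ≥ 3`)

`ρ (W k l) = J^k A x` where `A` is a product of the matrices `V_a = (s_a s_(a+1); s_(a-1) s_a)` and
`x ∈ {1, -1, J, -J}`. The product of at least one `V_a` has positive diagonal entries, nonnegative entries and a
positive entry off the diagonal, so it is not one of `1, -1, J, -J`. -/

set_option autoImplicit false

namespace Pool.Agent.H71.DR

open Pool.Agent.H52.PAG

/-- the group `{1, -1, J, -J}` -/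
def Jg : Subgroup Mu where
  carrier := {x | x = 1 ∨ x = -1 ∨ x = uJ ∨ x = -uJ}
  one_mem' := Or.inl rfl
  mul_mem' := by
    rintro x y (rfl | rfl | rfl | rfl) (rfl | rfl | rfl | rfl) <;>
      simp only [Set.mem_ofPred_eq, one_mul, mul_one, neg_mul, mul_neg, neg_neg, uJ_mul, true_or,
        or_true]
  inv_mem' := by
    have h : uJ⁻¹ = -uJ := by
      rw [inv_eq_iff_mul_eq_one, mul_neg, uJ_mul, neg_neg]
    rintro x (rfl | rfl | rfl | rfl) <;>
      simp only [Set.mem_ofPred_eq, inv_one, inv_neg, h, neg_neg, true_or, or_true]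

theorem uJ_mem : uJ ∈ Jg := Or.inr (Or.inr (Or.inl rfl))

theorem neg_one_mem : (-1 : Mu) ∈ Jg := Or.inr (Or.inl rfl)

/-- positive matrices -/
structure Good (A : Matrix (Fin 2) (Fin 2) ℝ) : Prop where
  a : 0 < A 0 0
  d : 0 < A 1 1
  b : 0 ≤ A 0 1
  c : 0 ≤ A 1 0
  s : 0 < A 0 1 + A 1 0

theorem Good.mul {A B : Matrix (Fin 2) (Fin 2) ℝ} (hA : Good A) (hB : Good B) : Good (A * B) := by
  have h1 := hA.a
  have h2 := hA.b
  have h3 := hA.c
  have h4 := hA.d
  have k1 := hB.a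
  have k2 := hB.b
  have k3 := hB.c
  have k4 := hB.d
  have k5 := hB.s
  have e : ∀ i j, (A * B) i j = A i 0 * B 0 j + A i 1 * B 1 j := fun i j => by
    rw [Matrix.mul_apply, Fin.sum_univ_two]
  refine ⟨?_, ?_, ?_, ?_, ?_⟩
  · rw [e]
    have := mul_pos h1 k1
    have := mul_nonneg h2 k3
    linarith
  · rw [e]
    have := mul_pos h4 k4
    have := mul_nonneg h3 k2
    linarith
  · rw [e]
    have := mul_nonneg h1.le k2
    have := mul_nonneg h2 k4.le
    linarith
  · rw [e]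
    have := mul_nonneg h3 k1.le
    have := mul_nonneg h4.le k3
    linarith
  · rw [e, e]
    have q1 := mul_nonneg h2 k4.le
    have q2 := mul_nonneg h3 k1.le
    have q3 := mul_nonneg h1.le k2
    have q4 := mul_nonneg h4.le k3
    rcases k2.lt_or_eq with h | h
    · have := mul_pos h1 h
      linarith
    · have h5 : 0 < B 1 0 := by linarith
      have := mul_pos h4 h5
      linarith

theorem not_good {x : Mu} (hx : x ∈ Jg) : ¬ Good (x : Matrix (Fin 2) (Fin 2) ℝ) := by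
  intro h
  rcases hx with rfl | rfl | rfl | rfl
  · have := h.s
    rw [Units.val_one, Matrix.one_apply_ne (by decide), Matrix.one_apply_ne (by decide)] at this
    norm_num at this
  · have := h.a
    rw [Units.val_neg, Units.val_one, Matrix.neg_apply, Matrix.one_apply_eq] at this
    norm_num at this
  · have h1 : (0 : ℝ) < (0 : ℝ) := h.a
    exact lt_irrefl _ h1
  · have h1 : (0 : ℝ) < -(0 : ℝ) := h.a
    rw [neg_zero] at h1
    exact lt_irrefl _ h1

variable {m : ℕ}

/-- the letters -/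
theorem rh_cc (hm : 2 ≤ m) (k : ℕ) : rh2 m hm (cc m k) = uJ ^ k * uS (lam m) * (uJ ^ k)⁻¹ := by
  induction k with
  | zero =>
    unfold cc
    rw [pow_zero, one_mul, inv_one, mul_one]
    simp only [Nat.not_odd_zero, decide_false]
    exact rh2_false m hm
  | succ k ih =>
    have h1 : uJ ^ (k + 1) * uS (lam m) * (uJ ^ (k + 1))⁻¹ =
        uJ * (uJ ^ k * uS (lam m) * (uJ ^ k)⁻¹) * uJ⁻¹ := by
      rw [pow_succ', mul_inv_rev]
      simp only [mul_assoc]
    rw [h1, ← ih]
    unfold cc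
    rcases Nat.even_or_odd k with h | h
    · have h2 : ¬ Odd k := Nat.not_odd_iff_even.2 h
      have h3 : Odd (k + 1) := h.add_one
      simp only [h2, h3, decide_false, decide_true]
      rw [rh2_false, rh2_true, uJ_uS, mul_inv_cancel_right]
    · have h2 : ¬ Odd (k + 1) := Nat.not_odd_iff_even.2 h.add_one
      simp only [h2, h, decide_false, decide_true]
      rw [rh2_false, rh2_true, uJ_uT, mul_inv_cancel_right]

theorem rh_seg (hm : 2 ≤ m) (k a : ℕ) :
    rh2 m hm (seg m k a) = uJ ^ k * (uS (lam m) * uJ) ^ a * (uJ ^ (k + a))⁻¹ := by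
  induction a generalizing k with
  | zero => rw [seg, map_one, pow_zero, mul_one, Nat.add_zero, mul_inv_cancel]
  | succ a ih =>
    rw [seg, map_mul, rh_cc, ih, show k + (a + 1) = k + 1 + a by ring]
    have e1 : uJ ^ k * (uS (lam m) * uJ) ^ (a + 1) =
        uJ ^ k * uS (lam m) * (uJ ^ k)⁻¹ * (uJ ^ (k + 1) * (uS (lam m) * uJ) ^ a) := by
      have e2 : (uJ ^ k)⁻¹ * uJ ^ (k + 1) = uJ := by rw [pow_succ, inv_mul_cancel_left]
      calc uJ ^ k * (uS (lam m) * uJ) ^ (a + 1)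
          = uJ ^ k * uS (lam m) * uJ * (uS (lam m) * uJ) ^ a := by
            rw [pow_succ']
            simp only [mul_assoc]
        _ = uJ ^ k * uS (lam m) * ((uJ ^ k)⁻¹ * uJ ^ (k + 1)) * (uS (lam m) * uJ) ^ a := by
            rw [e2]
        _ = _ := by simp only [mul_assoc]
    rw [e1]
    simp only [mul_assoc]

/-- the positive matrices `V_a` -/
theorem good_V (hm : 3 ≤ m) {a : ℕ} (h1 : 1 ≤ a) (h2 : a < m) :
    ∃ A : Matrix (Fin 2) (Fin 2) ℝ, Good A ∧
      (((uS (lam m) * uJ) ^ a * uJ : Mu) : Matrix (Fin 2) (Fin 2) ℝ) = (-1 : ℝ) ^ a • A := by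
  have ha1 : (1 : ℝ) ≤ a := by exact_mod_cast h1
  have ha2 : (a : ℝ) + 1 ≤ m := by exact_mod_cast h2
  have hm' : (3 : ℝ) ≤ m := by exact_mod_cast hm
  refine ⟨!![sn m a, sn m (a + 1); sn m (a - 1), sn m a], ?_, ?_⟩
  · have p1 : 0 < sn m a := sn_pos m (by omega) (by linarith) (by linarith)
    have p2 : 0 ≤ sn m (a + 1) := sn_nonneg m (by omega) (by linarith) ha2
    have p3 : 0 ≤ sn m (a - 1) := sn_nonneg m (by omega) (by linarith) (by linarith)
    refine ⟨p1, p1, p2, p3, ?_⟩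
    show 0 < sn m (a + 1) + sn m (a - 1)
    by_cases h3 : (a : ℝ) + 1 < m
    · have := sn_pos m (by omega) (x := (a : ℝ) + 1) (by linarith) h3
      linarith
    · have := sn_pos m (by omega) (x := (a : ℝ) - 1) (by linarith) (by linarith)
      linarith
  · rw [Units.val_mul, pow_SJ m (by omega), Matrix.smul_mul]
    congr 1
    show _ * !![0, 1; -1, 0] = _
    rw [Matrix.mul_fin_two]
    simp

/-- the image of a product of alternating words -/
theorem rh_W (hm : 3 ≤ m) (k : ℕ) (l : List ℕ) (hl : Ok m l) :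
    ∃ (A : Matrix (Fin 2) (Fin 2) ℝ) (x : Mu), x ∈ Jg ∧ (l = [] ∧ A = 1 ∨ Good A) ∧
      ((rh2 m (by omega) (W m k l) : Mu) : Matrix (Fin 2) (Fin 2) ℝ) =
        ((uJ ^ k : Mu) : Matrix (Fin 2) (Fin 2) ℝ) * A * (x : Matrix (Fin 2) (Fin 2) ℝ) := by
  induction l generalizing k with
  | nil =>
    refine ⟨1, (uJ ^ k)⁻¹, inv_mem (pow_mem uJ_mem k), Or.inl ⟨rfl, rfl⟩, ?_⟩
    rw [W, map_one, mul_one, ← Units.val_mul, mul_inv_cancel]
  | cons a l ih =>
    have ha := hl a List.mem_cons_self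
    obtain ⟨A, x, hx, hA, hW⟩ := ih (k + a + 1) (fun b hb => hl b (List.mem_cons_of_mem _ hb))
    obtain ⟨V, hV, hVe⟩ := good_V hm ha.1 ha.2
    have hVA : Good (V * A) := by
      rcases hA with ⟨_, rfl⟩ | hA
      · rw [mul_one]
        exact hV
      · exact hV.mul hA
    refine ⟨V * A, (-1) ^ a * x, mul_mem (pow_mem neg_one_mem a) hx, Or.inr hVA, ?_⟩
    rw [W, map_mul, Units.val_mul, hW, rh_seg]
    have e1 : uJ ^ k * (uS (lam m) * uJ) ^ a * (uJ ^ (k + a))⁻¹ * uJ ^ (k + a + 1) =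
        uJ ^ k * ((uS (lam m) * uJ) ^ a * uJ) := by
      rw [pow_succ uJ (k + a)]
      simp only [mul_assoc, inv_mul_cancel_left]
    have e2 : ((uJ ^ k * (uS (lam m) * uJ) ^ a * (uJ ^ (k + a))⁻¹ : Mu) :
        Matrix (Fin 2) (Fin 2) ℝ) * ((uJ ^ (k + a + 1) : Mu) : Matrix (Fin 2) (Fin 2) ℝ) =
        ((uJ ^ k : Mu) : Matrix (Fin 2) (Fin 2) ℝ) * ((-1 : ℝ) ^ a • V) := by
      rw [← Units.val_mul, e1, Units.val_mul, hVe]
    have e3 : (((-1) ^ a * x : Mu) : Matrix (Fin 2) (Fin 2) ℝ) =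
        (-1 : ℝ) ^ a • (x : Matrix (Fin 2) (Fin 2) ℝ) := by
      rw [Units.val_mul, Units.val_pow_eq_pow_val, Units.val_neg, Units.val_one]
      rcases Nat.even_or_odd a with h | h
      · rw [h.neg_one_pow, h.neg_one_pow, one_smul, one_mul]
      · rw [h.neg_one_pow, h.neg_one_pow, neg_smul, one_smul, neg_one_mul]
    rw [e3]
    calc _ = (((uJ ^ k * (uS (lam m) * uJ) ^ a * (uJ ^ (k + a))⁻¹ : Mu) :
        Matrix (Fin 2) (Fin 2) ℝ) * ((uJ ^ (k + a + 1) : Mu) : Matrix (Fin 2) (Fin 2) ℝ)) * A *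
          (x : Matrix (Fin 2) (Fin 2) ℝ) := by simp only [mul_assoc]
      _ = _ := by
        rw [e2]
        simp only [Matrix.mul_smul, Matrix.smul_mul, mul_assoc]

theorem rh_del (hm : 2 ≤ m) : rh2 m hm (del m) ∈ Jg := by
  rw [← seg_del m 0, rh_seg, pow_SJ_m m hm]
  exact mul_mem (mul_mem (pow_mem uJ_mem _) (pow_mem neg_one_mem _)) (inv_mem (pow_mem uJ_mem _))

/-- the kernel of the representation consists of powers of the Garside element -/
theorem ker_rh2 (hm : 3 ≤ m) {g : DA m} (h : rh2 m (by omega) g = 1) : ∃ r : ℤ, g = del m ^ r := by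
  obtain ⟨r, k, l, hl, rfl⟩ := nf_all (m := m) (by omega) g
  obtain ⟨A, x, hx, hA, hW⟩ := rh_W hm k l hl
  rcases hA with ⟨rfl, _⟩ | hA
  · exact ⟨r, by rw [W, mul_one]⟩
  · exfalso
    rw [map_mul, map_zpow] at h
    have h1 : rh2 m (by omega) (W m k l) ∈ Jg := by
      have h2 : rh2 m (by omega) (W m k l) = (rh2 m (by omega) (del m) ^ r)⁻¹ :=
        (inv_eq_of_mul_eq_one_right h).symm
      rw [h2]
      exact inv_mem (zpow_mem (rh_del _) r)
    have h3 : (((uJ ^ k)⁻¹ * rh2 m (by omega) (W m k l) * x⁻¹ : Mu) :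
        Matrix (Fin 2) (Fin 2) ℝ) = A := by
      rw [Units.val_mul, Units.val_mul, hW]
      calc _ = (((uJ ^ k)⁻¹ : Mu) : Matrix (Fin 2) (Fin 2) ℝ) *
            ((uJ ^ k : Mu) : Matrix (Fin 2) (Fin 2) ℝ) * A *
            ((x : Matrix (Fin 2) (Fin 2) ℝ) * ((x⁻¹ : Mu) : Matrix (Fin 2) (Fin 2) ℝ)) := by
            simp only [mul_assoc]
        _ = A := by
            rw [← Units.val_mul, inv_mul_cancel, ← Units.val_mul, mul_inv_cancel, Units.val_one,
              one_mul, mul_one]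
    refine not_good (x := (uJ ^ k)⁻¹ * rh2 m (by omega) (W m k l) * x⁻¹) ?_ (by rw [h3]; exact hA)
    exact mul_mem (mul_mem (inv_mem (pow_mem uJ_mem k)) h1) (inv_mem hx)

/-- **The representation and the degree together are injective.** -/
theorem inj2 (hm : 3 ≤ m) {g : DA m} (h : rh2 m (by omega) g = 1) (hd : dega m g = 1) : g = 1 := by
  obtain ⟨r, rfl⟩ := ker_rh2 hm h
  rw [map_zpow, dega_del, ← ofAdd_zsmul, smul_eq_mul] at hd
  have h1 : r * (m : ℤ) = 0 := Multiplicative.ofAdd.injective hd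
  have h2 : (m : ℤ) ≠ 0 := by
    have : m ≠ 0 := by omega
    exact_mod_cast this
  rcases mul_eq_zero.1 h1 with h3 | h3
  · rw [h3, zpow_zero]
  · exact absurd h3 h2

end Pool.Agent.H71.DR
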