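import Pool.Agent.H52.PAG.Seg

/-! # Normal forms in the dihedral Artin group

`W k [a₁, a₂, …]` is the product of alternating words of lengths `a₁, a₂, …`, the first one beginning with the
letter `cc k`, every other one beginning with the last letter of the word before. Every element is
`del ^ r * W k l` where all lengths are in `[1, m - 1]`. -/

set_option autoImplicit false

namespace Pool.Agent.H71.DR

open Pool.Agent.H52.PAG

variable {m : ℕ}

/-- products of alternating words -/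
def W (m : ℕ) : ℕ → List ℕ → DA m
  | _, [] => 1
  | k, a :: l => seg m k a * W m (k + a + 1) l

theorem seg_par {k k' : ℕ} (h : k % 2 = k' % 2) (n : ℕ) : seg m k n = seg m k' n := by
  rcases le_total k k' with h1 | h1
  · obtain ⟨d, rfl⟩ : ∃ d, k' = k + 2 * d := ⟨(k' - k) / 2, by omega⟩
    rw [seg_shift]
  · obtain ⟨d, rfl⟩ : ∃ d, k = k' + 2 * d := ⟨(k - k') / 2, by omega⟩
    rw [seg_shift]

theorem cc_par {k k' : ℕ} (h : k % 2 = k' % 2) : cc m k = cc m k' := by
  rcases le_total k k' with h1 | h1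
  · obtain ⟨d, rfl⟩ : ∃ d, k' = k + 2 * d := ⟨(k' - k) / 2, by omega⟩
    rw [cc_add_two_mul]
  · obtain ⟨d, rfl⟩ : ∃ d, k = k' + 2 * d := ⟨(k - k') / 2, by omega⟩
    rw [cc_add_two_mul]

theorem W_par {k k' : ℕ} (h : k % 2 = k' % 2) (l : List ℕ) : W m k l = W m k' l := by
  induction l generalizing k k' with
  | nil => rfl
  | cons a l ih => rw [W, W, seg_par h, ih (by omega : (k + a + 1) % 2 = (k' + a + 1) % 2)]

/-- the lengths are between `1` and `m - 1` -/
def Ok (m : ℕ) (l : List ℕ) : Prop := ∀ a ∈ l, 1 ≤ a ∧ a < m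

/-- left multiplication of a product by a letter -/
theorem cc_mul_W (hm : 2 ≤ m) (j k : ℕ) (l : List ℕ) (hl : Ok m l) :
    (∃ k' l', Ok m l' ∧ cc m j * W m k l = W m k' l') ∨
      ∃ k' l', Ok m l' ∧ cc m j * W m k l = del m * W m k' l' := by
  have h1 : seg m j 1 = cc m j := by
    rw [show (1 : ℕ) = 0 + 1 from rfl, seg, seg, mul_one]
  rcases l with _ | ⟨a, l⟩
  · refine Or.inl ⟨j, [1], ?_, ?_⟩
    · intro a ha
      rw [List.mem_singleton] at ha
      omega
    · rw [W, W, W, h1]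
  · have hla : 1 ≤ a ∧ a < m := hl a List.mem_cons_self
    have hl' : Ok m l := fun b hb => hl b (List.mem_cons_of_mem _ hb)
    by_cases hjk : j % 2 = k % 2
    · refine Or.inl ⟨j, 1 :: a :: l, ?_, ?_⟩
      · intro b hb
        rcases List.mem_cons.1 hb with rfl | hb
        · omega
        · exact hl b hb
      · show cc m j * W m k (a :: l) = seg m j 1 * W m (j + 1 + 1) (a :: l)
        rw [h1]
        congr 1
        exact W_par (by omega) _
    · have e1 : cc m j * W m k (a :: l) = seg m j (a + 1) * W m (k + a + 1) l := by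
        rw [W, ← mul_assoc, seg, seg_par (show (j + 1) % 2 = k % 2 by omega)]
      by_cases ha : a + 1 < m
      · refine Or.inl ⟨j, (a + 1) :: l, ?_, ?_⟩
        · intro b hb
          rcases List.mem_cons.1 hb with rfl | hb
          · omega
          · exact hl' b hb
        · rw [e1, W]
          congr 1
          exact W_par (by omega) _
      · have ham : a + 1 = m := by omega
        refine Or.inr ⟨k + a + 1, l, hl', ?_⟩
        rw [e1, ham, seg_del]

/-- moving a letter over a power of the Garside element -/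
theorem cc_mul_pow (j : ℕ) (r : ℤ) : ∃ j' : ℕ, cc m j * del m ^ r = del m ^ r * cc m j' := by
  have hinv : ∀ j : ℕ, cc m j * (del m)⁻¹ = (del m)⁻¹ * cc m (j + m) := by
    intro j
    have h := cc_del m (j + m)
    have h2 : cc m (j + m + m) = cc m j := cc_par (by omega)
    rw [h2] at h
    rw [eq_inv_mul_iff_mul_eq, ← mul_assoc, mul_inv_eq_iff_eq_mul, h]
  induction r using Int.induction_on with
  | zero => exact ⟨j, by rw [zpow_zero, mul_one, one_mul]⟩
  | succ i ih =>
    obtain ⟨j', hj⟩ := ih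
    refine ⟨j' + m, ?_⟩
    rw [zpow_add_one, ← mul_assoc, hj, mul_assoc, cc_del, ← mul_assoc]
  | pred i ih =>
    obtain ⟨j', hj⟩ := ih
    refine ⟨j' + m, ?_⟩
    rw [zpow_sub_one, ← mul_assoc, hj, mul_assoc, hinv, ← mul_assoc]

/-- elements with a normal form -/
def Nf (m : ℕ) (g : DA m) : Prop := ∃ (r : ℤ) (k : ℕ) (l : List ℕ), Ok m l ∧ g = del m ^ r * W m k l

theorem nf_letter (hm : 2 ≤ m) (j : ℕ) {g : DA m} (hg : Nf m g) : Nf m (cc m j * g) := by
  obtain ⟨r, k, l, hl, rfl⟩ := hg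
  obtain ⟨j', hj⟩ := cc_mul_pow (m := m) j r
  rw [← mul_assoc, hj, mul_assoc]
  rcases cc_mul_W hm j' k l hl with ⟨k', l', h1, h2⟩ | ⟨k', l', h1, h2⟩
  · exact ⟨r, k', l', h1, by rw [h2]⟩
  · refine ⟨r + 1, k', l', h1, ?_⟩
    rw [h2, zpow_add_one, mul_assoc]

theorem nf_seg (hm : 2 ≤ m) (k n : ℕ) {g : DA m} (hg : Nf m g) : Nf m (seg m k n * g) := by
  induction n generalizing k with
  | zero => rw [seg, one_mul]; exact hg
  | succ n ih => rw [seg, mul_assoc]; exact nf_letter hm k (ih (k + 1))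

theorem nf_inv (hm : 2 ≤ m) (j : ℕ) {g : DA m} (hg : Nf m g) : Nf m ((cc m j)⁻¹ * g) := by
  obtain ⟨r, k, l, hl, rfl⟩ := hg
  have h1 : del m = cc m j * seg m (j + 1) (m - 1) := by
    rw [← seg_del m j]
    obtain ⟨n, rfl⟩ : ∃ n, m = n + 1 := ⟨m - 1, by omega⟩
    rw [Nat.add_sub_cancel, seg]
  have h2 : (cc m j)⁻¹ = seg m (j + 1) (m - 1) * (del m)⁻¹ := by
    rw [h1, mul_inv_rev, mul_inv_cancel_left]
  rw [h2, mul_assoc]
  refine nf_seg hm _ _ ⟨r - 1, k, l, hl, ?_⟩
  have h3 : (del m)⁻¹ * del m ^ r = del m ^ r * (del m)⁻¹ :=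
    ((Commute.refl (del m)).inv_left.zpow_right r).eq
  rw [← mul_assoc, zpow_sub_one, h3]

theorem dg_eq_cc (e : Bool) : ∃ j, dg m e = cc m j := by
  cases e
  · exact ⟨0, by unfold cc; simp⟩
  · exact ⟨1, by unfold cc; simp⟩

/-- every element has a normal form -/
theorem nf_all (hm : 2 ≤ m) (g : DA m) : Nf m g := by
  have hx : g ∈ Subgroup.closure (Set.range (dg m)) := by
    rw [da_closure]
    exact Subgroup.mem_top g
  refine Subgroup.closure_induction_left (p := fun x _ => Nf m x) ?_ ?_ ?_ hx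
  · exact ⟨0, 0, [], fun a ha => absurd ha List.not_mem_nil, by rw [zpow_zero, W, mul_one]⟩
  · rintro _ ⟨e, rfl⟩ y _ hy
    obtain ⟨j, hj⟩ := dg_eq_cc (m := m) e
    rw [hj]
    exact nf_letter hm j hy
  · rintro _ ⟨e, rfl⟩ y _ hy
    obtain ⟨j, hj⟩ := dg_eq_cc (m := m) e
    rw [hj]
    exact nf_inv hm j hy

end Pool.Agent.H71.DR
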