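import Pool.Agent.H71.DR.Nf

/-! # The dihedral Artin group in `GL₂(ℝ)`

`S = (1 L; 0 1)`, `J = (0 1; -1 0)`, `T = J S J⁻¹ = (1 0; -L 1)` with `L = 2 cos (π / m)`. The element `S J` has
the powers `± (s_(a+1) -s_a; s_a -s_(a-1))` with `s_a = sin (a π / m) / sin (π / m)`. -/

set_option autoImplicit false

namespace Pool.Agent.H71.DR

open Pool.Agent.H52.PAG

/-- invertible real `2 × 2` matrices -/
abbrev Mu : Type := (Matrix (Fin 2) (Fin 2) ℝ)ˣ

/-- upper triangular unipotent matrices -/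
def uS (c : ℝ) : Mu where
  val := !![1, c; 0, 1]
  inv := !![1, -c; 0, 1]
  val_inv := by
    rw [Matrix.mul_fin_two, Matrix.one_fin_two]
    simp
  inv_val := by
    rw [Matrix.mul_fin_two, Matrix.one_fin_two]
    simp

/-- the rotation -/
def uJ : Mu where
  val := !![0, 1; -1, 0]
  inv := !![0, -1; 1, 0]
  val_inv := by
    rw [Matrix.mul_fin_two, Matrix.one_fin_two]
    simp
  inv_val := by
    rw [Matrix.mul_fin_two, Matrix.one_fin_two]
    simp

/-- lower triangular unipotent matrices -/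
def uT (c : ℝ) : Mu where
  val := !![1, 0; -c, 1]
  inv := !![1, 0; c, 1]
  val_inv := by
    rw [Matrix.mul_fin_two, Matrix.one_fin_two]
    simp
  inv_val := by
    rw [Matrix.mul_fin_two, Matrix.one_fin_two]
    simp

theorem uJ_mul : uJ * uJ = -1 := by
  refine Units.ext ?_
  show !![0, 1; -1, 0] * !![0, 1; -1, 0] = -(1 : Matrix (Fin 2) (Fin 2) ℝ)
  rw [Matrix.mul_fin_two, Matrix.one_fin_two]
  ext i j
  fin_cases i <;> fin_cases j <;> simp

theorem uJ_uS (c : ℝ) : uJ * uS c = uT c * uJ := by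
  refine Units.ext ?_
  show !![0, 1; -1, 0] * !![1, c; 0, 1] = !![1, 0; -c, 1] * !![0, 1; -1, 0]
  rw [Matrix.mul_fin_two, Matrix.mul_fin_two]
  ext i j
  fin_cases i <;> fin_cases j <;> simp

theorem uJ_uT (c : ℝ) : uJ * uT c = uS c * uJ := by
  refine Units.ext ?_
  show !![0, 1; -1, 0] * !![1, 0; -c, 1] = !![1, c; 0, 1] * !![0, 1; -1, 0]
  rw [Matrix.mul_fin_two, Matrix.mul_fin_two]
  ext i j
  fin_cases i <;> fin_cases j <;> simp

/-- alternating products: general formula -/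
theorem alt_formula {G : Type*} [Group G] {s t j : G} (h1 : j * s = t * j) (h2 : j * t = s * j)
    (n : ℕ) : alt s t n = (s * j) ^ n * (j ^ n)⁻¹ ∧ alt t s n = j * (s * j) ^ n * (j ^ (n + 1))⁻¹ := by
  have key : ∀ n, j * alt s t n = alt t s n * j ∧ j * alt t s n = alt s t n * j := by
    intro n
    induction n with
    | zero => exact ⟨by rw [alt, alt, mul_one, one_mul], by rw [alt, alt, mul_one, one_mul]⟩
    | succ n ih =>
      constructor
      · rw [alt, alt, ← mul_assoc, h1, mul_assoc, ih.2, mul_assoc]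
      · rw [alt, alt, ← mul_assoc, h2, mul_assoc, ih.1, mul_assoc]
  have h3 : ∀ n, alt s t n = (s * j) ^ n * (j ^ n)⁻¹ := by
    intro n
    induction n with
    | zero => rw [alt, pow_zero, pow_zero, inv_one, mul_one]
    | succ n ih =>
      have h4 : alt t s n = j * alt s t n * j⁻¹ := by rw [(key n).1, mul_inv_cancel_right]
      rw [alt, h4, ih, pow_succ', pow_succ' j, mul_inv_rev]
      simp only [mul_assoc]
  refine ⟨h3 n, ?_⟩
  have h4 : alt t s n = j * alt s t n * j⁻¹ := by rw [(key n).1, mul_inv_cancel_right]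
  rw [h4, h3 n, pow_succ' j, mul_inv_rev]
  simp only [mul_assoc]

section

variable (m : ℕ)

/-- `2 cos (π / m)` -/
noncomputable def lam : ℝ := 2 * Real.cos (Real.pi / m)

/-- `sin (x π / m) / sin (π / m)` -/
noncomputable def sn (x : ℝ) : ℝ := Real.sin (x * (Real.pi / m)) / Real.sin (Real.pi / m)

theorem sn_rec (x : ℝ) : sn m (x + 2) = sn m (x + 1) * lam m - sn m x := by
  unfold sn lam
  have h1 : Real.sin ((x + 2) * (Real.pi / m)) =
      2 * Real.sin ((x + 1) * (Real.pi / m)) * Real.cos (Real.pi / m) -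
        Real.sin (x * (Real.pi / m)) := by
    have e1 : (x + 2) * (Real.pi / m) = (x + 1) * (Real.pi / m) + Real.pi / m := by ring
    have e2 : x * (Real.pi / m) = (x + 1) * (Real.pi / m) - Real.pi / m := by ring
    rw [e1, e2, Real.sin_add, Real.sin_sub]
    ring
  rw [h1]
  ring

theorem sin_pos_m (hm : 2 ≤ m) : 0 < Real.sin (Real.pi / m) := by
  have hm0 : (2 : ℝ) ≤ m := by exact_mod_cast hm
  refine Real.sin_pos_of_pos_of_lt_pi (by positivity) ?_
  rw [div_lt_iff₀ (by linarith)]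
  nlinarith [Real.pi_pos]

theorem sn_zero : sn m 0 = 0 := by
  unfold sn
  rw [zero_mul, Real.sin_zero, zero_div]

theorem sn_one (hm : 2 ≤ m) : sn m 1 = 1 := by
  unfold sn
  rw [one_mul, div_self (sin_pos_m m hm).ne']

theorem sn_neg_one (hm : 2 ≤ m) : sn m (-1) = -1 := by
  unfold sn
  rw [neg_one_mul, Real.sin_neg, neg_div, div_self (sin_pos_m m hm).ne']

theorem sn_m (hm : 2 ≤ m) : sn m m = 0 ∧ sn m (m + 1) = -1 ∧ sn m (m - 1) = 1 := by
  have hm0 : (m : ℝ) ≠ 0 := by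
    have : m ≠ 0 := by omega
    exact_mod_cast this
  have h1 : (m : ℝ) * (Real.pi / m) = Real.pi := by field_simp
  have h2 := (sin_pos_m m hm).ne'
  unfold sn
  refine ⟨?_, ?_, ?_⟩
  · rw [h1, Real.sin_pi, zero_div]
  · rw [add_mul, h1, one_mul, add_comm, Real.sin_add_pi, neg_div, div_self h2]
  · rw [sub_mul, h1, one_mul, Real.sin_pi_sub, div_self h2]

theorem sn_pos (hm : 2 ≤ m) {x : ℝ} (h0 : 0 < x) (h1 : x < m) : 0 < sn m x := by
  have hm0 : (2 : ℝ) ≤ m := by exact_mod_cast hm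
  refine div_pos (Real.sin_pos_of_pos_of_lt_pi (by positivity) ?_) (sin_pos_m m hm)
  rw [← mul_div_assoc, div_lt_iff₀ (by linarith), mul_comm]
  exact mul_lt_mul_of_pos_left h1 Real.pi_pos

theorem sn_nonneg (hm : 2 ≤ m) {x : ℝ} (h0 : 0 ≤ x) (h1 : x ≤ m) : 0 ≤ sn m x := by
  have hm0 : (2 : ℝ) ≤ m := by exact_mod_cast hm
  refine div_nonneg (Real.sin_nonneg_of_nonneg_of_le_pi (by positivity) ?_) (sin_pos_m m hm).le
  rw [← mul_div_assoc, div_le_iff₀ (by linarith), mul_comm]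
  exact mul_le_mul_of_nonneg_left h1 Real.pi_pos.le

/-- the powers of `S J` -/
theorem pow_SJ (hm : 2 ≤ m) (a : ℕ) : (((uS (lam m) * uJ) ^ a : Mu) : Matrix (Fin 2) (Fin 2) ℝ) =
    (-1 : ℝ) ^ a • !![sn m (a + 1), -sn m a; sn m a, -sn m (a - 1)] := by
  have hR : ((uS (lam m) * uJ : Mu) : Matrix (Fin 2) (Fin 2) ℝ) = !![-lam m, 1; -1, 0] := by
    show !![1, lam m; 0, 1] * !![0, 1; -1, 0] = _
    rw [Matrix.mul_fin_two]
    simp
  induction a with
  | zero =>
    rw [pow_zero, pow_zero, one_smul, Units.val_one, Nat.cast_zero, zero_add, zero_sub, sn_zero,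
      sn_one m hm, sn_neg_one m hm, neg_neg, neg_zero, Matrix.one_fin_two]
  | succ a ih =>
    have h1 := sn_rec m a
    have h2 := sn_rec m (a - 1)
    have e1 : (a : ℝ) - 1 + 2 = a + 1 := by ring
    have e2 : (a : ℝ) - 1 + 1 = a := by ring
    rw [e1, e2] at h2
    rw [pow_succ, Units.val_mul, ih, hR, Matrix.smul_mul, Matrix.mul_fin_two, pow_succ, mul_smul]
    congr 1
    push_cast
    have e3 : (a : ℝ) + 1 + 1 = a + 2 := by ring
    have e4 : (a : ℝ) + 1 - 1 = a := by ring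
    rw [e3, e4, h1, h2]
    ext i j
    fin_cases i <;> fin_cases j <;> simp <;> ring

theorem pow_SJ_m (hm : 2 ≤ m) : (uS (lam m) * uJ) ^ m = (-1 : Mu) ^ (m + 1) := by
  refine Units.ext ?_
  obtain ⟨h1, h2, h3⟩ := sn_m m hm
  rw [pow_SJ m hm, h1, h2, h3]
  have e : ((((-1 : Mu) ^ (m + 1) : Mu)) : Matrix (Fin 2) (Fin 2) ℝ) = (-1 : ℝ) ^ (m + 1) • 1 := by
    rw [Units.val_pow_eq_pow_val, Units.val_neg, Units.val_one]
    rcases Nat.even_or_odd (m + 1) with h | h
    · rw [h.neg_one_pow, h.neg_one_pow, one_smul]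
    · rw [h.neg_one_pow, h.neg_one_pow, neg_smul, one_smul]
  rw [e, pow_succ, mul_smul]
  congr 1
  rw [Matrix.one_fin_two]
  ext i j
  fin_cases i <;> fin_cases j <;> simp

/-- the braid relation -/
theorem braid_two (hm : 2 ≤ m) :
    alt (uS (lam m)) (uT (lam m)) m = alt (uT (lam m)) (uS (lam m)) m := by
  obtain ⟨h1, h2⟩ := alt_formula (uJ_uS (lam m)) (uJ_uT (lam m)) m
  rw [h1, h2, pow_SJ_m m hm, pow_succ' uJ, mul_inv_rev]
  have h3 : uJ * (-1 : Mu) ^ (m + 1) = (-1 : Mu) ^ (m + 1) * uJ :=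
    ((Commute.neg_one_right uJ).pow_right (m + 1)).eq
  have h4 : (uJ ^ m)⁻¹ * uJ⁻¹ = uJ⁻¹ * (uJ ^ m)⁻¹ := by
    rw [← mul_inv_rev, ← mul_inv_rev, ← pow_succ, ← pow_succ']
  rw [h3, h4, mul_assoc, mul_inv_cancel_left]

/-- the representation -/
noncomputable def rh2 (hm : 2 ≤ m) : DA m →* Mu :=
  dlift (fun e => if e then uT (lam m) else uS (lam m)) (by simpa using braid_two m hm)

theorem rh2_false (hm : 2 ≤ m) : rh2 m hm (dg m false) = uS (lam m) := dlift_dg _ _ false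

theorem rh2_true (hm : 2 ≤ m) : rh2 m hm (dg m true) = uT (lam m) := dlift_dg _ _ true

end

end Pool.Agent.H71.DR
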